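import Pool.Agent.helper64.QF.Spec

/-! Project pq: (MP_b9b9c0_an), module EXF: first order expansion of the flow. -/

set_option autoImplicit false

namespace Pool.Agent.helper64.QF

open Metric MeasureTheory Set Filter Topology
open Pool.Agent.helper37.PR

theorem EXF_cd {n : ℕ} (A : E n →L[ℂ] E n) (u : E n) : ContDiff ℝ 1 (dual A u) := by
  rw [contDiff_one_iff_deriv]
  refine ⟨fun t => (dual_hasDerivAt A u t).differentiableAt, ?_⟩
  have h1 : deriv (dual A u) = fun t => ContinuousLinearMap.adjoint A (dual A u t) := by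
    funext t; exact (dual_hasDerivAt A u t).deriv
  rw [h1]
  have h2 : Continuous (dual A u) :=
    continuous_iff_continuousAt.2 fun t => (dual_hasDerivAt A u t).continuousAt
  exact (ContinuousLinearMap.adjoint A).continuous.comp h2

theorem EXF_ac {n : ℕ} (A : E n →L[ℂ] E n) (u : E n) (T : ℝ) :
    AbsolutelyContinuousOnInterval (fun s : ℝ => dual A u (s - T)) 0 T := by
  apply ContDiffOn.absolutelyContinuousOnInterval
  apply ContDiff.contDiffOn
  exact (EXF_cd A u).comp (contDiff_id.sub contDiff_const)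

theorem EXF_der {n : ℕ} (A : E n →L[ℂ] E n) (u : E n) (T s : ℝ) :
    HasDerivAt (fun s : ℝ => dual A u (s - T))
      (ContinuousLinearMap.adjoint A (dual A u (s - T))) s := by
  have h1 := (dual_hasDerivAt A u (s - T)).scomp s ((hasDerivAt_id s).sub_const T)
  rw [one_smul] at h1
  exact h1

theorem EXF_adj {n : ℕ} (A : E n →L[ℂ] E n) (y : E n) :
    (inner ℂ y (ContinuousLinearMap.adjoint A y)).re = qA A y := by
  rw [ContinuousLinearMap.adjoint_inner_right, reInner_comm]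
  rfl

theorem EXF_dual {n : ℕ} (A : E n →L[ℂ] E n) (m : ℝ) (hm : ∀ x : E n, m * ‖x‖ ^ 2 ≤ qA A x)
    (u : E n) (hu : ‖u‖ = 1) (τ : ℝ) (hτ : τ ≤ 0) : ‖dual A u τ‖ ≤ Real.exp (m * τ) := by
  have hd : ∀ t : ℝ, HasDerivAt (fun t => Real.exp (-(2 * m) * t) * ‖dual A u t‖ ^ 2)
      ((Real.exp (-(2 * m) * t) * (-(2 * m))) * ‖dual A u t‖ ^ 2 + Real.exp (-(2 * m) * t) *
        (2 * (inner ℂ (dual A u t) (ContinuousLinearMap.adjoint A (dual A u t))).re)) t := by
    intro t
    have e1 : HasDerivAt (fun t : ℝ => Real.exp (-(2 * m) * t))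
        (Real.exp (-(2 * m) * t) * (-(2 * m))) t := by
      have := ((hasDerivAt_id t).const_mul (-(2 * m))).exp
      simpa using this
    exact e1.mul (hasDerivAt_normSq (dual_hasDerivAt A u t))
  have hmono : Monotone (fun t => Real.exp (-(2 * m) * t) * ‖dual A u t‖ ^ 2) := by
    apply monotone_of_deriv_nonneg (fun t => (hd t).differentiableAt)
    intro t
    rw [(hd t).deriv, EXF_adj]
    have h1 := hm (dual A u t)
    have h2 := Real.exp_pos (-(2 * m) * t)
    nlinarith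
  have h1 := hmono hτ
  simp only [dual_zero, hu, mul_zero, Real.exp_zero, one_pow, mul_one] at h1
  have h2 : ‖dual A u τ‖ ^ 2 ≤ Real.exp (m * τ) ^ 2 := by
    rw [← Real.exp_nat_mul]
    have h3 : Real.exp (((2 : ℕ) : ℝ) * (m * τ)) = (Real.exp (-(2 * m) * τ))⁻¹ := by
      rw [← Real.exp_neg]; congr 1; push_cast; ring
    rw [h3, ← one_div, le_div_iff₀ (Real.exp_pos _)]
    linarith
  exact (pow_le_pow_iff_left₀ (norm_nonneg _) (Real.exp_pos _).le two_ne_zero).1 h2

theorem EXF_norm {n : ℕ} (w : E n) (c : ℝ) (hc : 0 ≤ c)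
    (h : ∀ y : E n, ‖y‖ = 1 → (inner ℂ y w).re ≤ c) : ‖w‖ ≤ c := by
  by_cases hw : w = 0
  · rw [hw, norm_zero]; exact hc
  · have hwn : 0 < ‖w‖ := norm_pos_iff.2 hw
    have h1 := h (((‖w‖⁻¹ : ℝ) : ℂ) • w) (by
      rw [norm_smul, Complex.norm_real, norm_inv, norm_norm, inv_mul_cancel₀ hwn.ne'])
    rw [inner_smul_left, Complex.conj_ofReal, Complex.re_ofReal_mul, reInner_self] at h1
    have h2 : ‖w‖⁻¹ * ‖w‖ ^ 2 = ‖w‖ := by field_simp
    linarith

theorem EXF_main {n : ℕ} (A : E n →L[ℂ] E n) (m μ : ℝ) (hm : ∀ x : E n, m * ‖x‖ ^ 2 ≤ qA A x)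
    (hμ : 0 < 2 * μ - m) (h v : E n → ℝ → E n) (hh : IsHerglotz A h) (hv : IsLoewner h v)
    (z : E n) (hz : ‖z‖ ≤ 1 / 10)
    (hdec : ∀ t : ℝ, 0 ≤ t → ‖v z t‖ ≤ ‖z‖ * Real.exp (-(μ * t))) (T : ℝ) (hT : 0 ≤ T) :
    ‖v z T - fw A z T‖ ≤ 196 * ‖A‖ / (2 * μ - m) * ‖z‖ ^ 2 * Real.exp (-(m * T)) := by
  have hA := norm_nonneg A
  have hzb : z ∈ ball (0 : E n) 1 := by
    rw [mem_ball_zero_iff]; linarith
  apply EXF_norm _ _ (by positivity)
  intro y hy
  have hacV := hv.ac z hzb T hT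
  have hacU := EXF_ac A y T
  have hacφ := ac_reInner hacU hacV
  have hacG := (ac_exp (-(2 * μ - m)) T).const_mul
    (196 * ‖A‖ / (2 * μ - m) * ‖z‖ ^ 2 * Real.exp (-(m * T)))
  have hmain := ac_le_zero hT (hacφ.add hacG)
    (g' := fun t => ((inner ℂ (dual A y (t - T)) (-(h (v z t) t))).re +
        (inner ℂ (ContinuousLinearMap.adjoint A (dual A y (t - T))) (v z t)).re) +
      (196 * ‖A‖ / (2 * μ - m) * ‖z‖ ^ 2 * Real.exp (-(m * T))) *
        (Real.exp (-(2 * μ - m) * t) * (-(2 * μ - m)))) (by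
      filter_upwards [hh.cara, hv.ode z hzb] with t h1 h2 ht htT
      have hc := h1 ht
      have hd := h2 ht
      refine ⟨?_, ?_⟩
      · have e1 : HasDerivAt (fun t : ℝ => Real.exp (-(2 * μ - m) * t))
            (Real.exp (-(2 * μ - m) * t) * (-(2 * μ - m))) t := by
          have := ((hasDerivAt_id t).const_mul (-(2 * μ - m))).exp
          simpa using this
        exact (hasDerivAt_reInner (EXF_der A y T t) hd).add (e1.const_mul _)
      · have hvn : ‖v z t‖ ≤ ‖z‖ * Real.exp (-(μ * t)) := hdec t ht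
        have hv4 : ‖v z t‖ < 1 / 4 := by
          have := flow_le hh hv hzb ht
          linarith
        have hr := remainder2 hc hv4
        have hY : ‖dual A y (t - T)‖ ≤ Real.exp (m * (t - T)) :=
          EXF_dual A m hm y hy (t - T) (by linarith)
        have e2 : (inner ℂ (dual A y (t - T)) (-(h (v z t) t))).re +
            (inner ℂ (ContinuousLinearMap.adjoint A (dual A y (t - T))) (v z t)).re =
            -(inner ℂ (dual A y (t - T)) (h (v z t) t - A (v z t))).re := by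
          rw [ContinuousLinearMap.adjoint_inner_left, inner_neg_right, inner_sub_right,
            Complex.neg_re, Complex.sub_re]
          ring
        rw [e2]
        have h3 : -(inner ℂ (dual A y (t - T)) (h (v z t) t - A (v z t))).re ≤
            Real.exp (m * (t - T)) * (196 * ‖A‖ * (‖z‖ * Real.exp (-(μ * t))) ^ 2) := by
          calc -(inner ℂ (dual A y (t - T)) (h (v z t) t - A (v z t))).re
              ≤ |(inner ℂ (dual A y (t - T)) (h (v z t) t - A (v z t))).re| := neg_le_abs _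
            _ ≤ ‖(inner ℂ (dual A y (t - T)) (h (v z t) t - A (v z t)) : ℂ)‖ := Complex.abs_re_le_norm _
            _ ≤ ‖dual A y (t - T)‖ * ‖h (v z t) t - A (v z t)‖ := norm_inner_le_norm _ _
            _ ≤ Real.exp (m * (t - T)) * (196 * ‖A‖ * ‖v z t‖ ^ 2) := by gcongr
            _ ≤ Real.exp (m * (t - T)) * (196 * ‖A‖ * (‖z‖ * Real.exp (-(μ * t))) ^ 2) := by gcongr
        have e3 : Real.exp (m * (t - T)) * (196 * ‖A‖ * (‖z‖ * Real.exp (-(μ * t))) ^ 2) =
            196 * ‖A‖ * ‖z‖ ^ 2 * Real.exp (-(m * T)) * Real.exp (-(2 * μ - m) * t) := by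
          have e4 : Real.exp (m * (t - T)) * Real.exp (-(μ * t)) ^ 2 =
              Real.exp (-(m * T)) * Real.exp (-(2 * μ - m) * t) := by
            rw [← Real.exp_nat_mul, ← Real.exp_add, ← Real.exp_add]
            congr 1
            push_cast
            ring
          calc _ = 196 * ‖A‖ * ‖z‖ ^ 2 * (Real.exp (m * (t - T)) * Real.exp (-(μ * t)) ^ 2) := by ring
            _ = _ := by rw [e4]; ring
        have e5 : 196 * ‖A‖ / (2 * μ - m) * ‖z‖ ^ 2 * Real.exp (-(m * T)) *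
            (Real.exp (-(2 * μ - m) * t) * (-(2 * μ - m))) =
            -(196 * ‖A‖ * ‖z‖ ^ 2 * Real.exp (-(m * T)) * Real.exp (-(2 * μ - m) * t)) := by
          field_simp
        rw [e5]
        rw [e3] at h3
        linarith)
  simp only [Pi.add_apply, sub_self, dual_zero, zero_sub, hv.init z hzb, mul_zero, Real.exp_zero,
    mul_one] at hmain
  have h0 : (inner ℂ (dual A y (-T)) z : ℂ) = inner ℂ y (fw A z T) := by
    rw [dual_inner]
    unfold fw
    push_cast
    rfl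
  rw [h0] at hmain
  rw [inner_sub_right, Complex.sub_re]
  have h6 : 0 ≤ 196 * ‖A‖ / (2 * μ - m) * ‖z‖ ^ 2 * Real.exp (-(m * T)) *
      Real.exp (-(2 * μ - m) * T) := by positivity
  linarith

theorem EXF : EXF_stmt := by
  intro n A m κ C hC
  have hm0 := hC.m0
  have hmκ := hC.mκ
  have hκ2 := hC.κ2
  have hμm : (κ + m) / 3 < m := by linarith
  have hμ0 : 0 < (κ + m) / 3 := by linarith
  have hμ2 : 0 < 2 * ((κ + m) / 3) - m := by linarith
  refine ⟨min (1 / 10) ((m - (κ + m) / 3) / (m + (κ + m) / 3)),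
    196 * ‖A‖ / (2 * ((κ + m) / 3) - m), (κ + m) / 3, ?_, min_le_left _ _, by positivity, hμ0, hμm.le,
    by linarith, by linarith, ?_⟩
  · have : 0 < m - (κ + m) / 3 := by linarith
    exact lt_min (by norm_num) (by positivity)
  intro h v hh hv z hz
  have hz1 : ‖z‖ ≤ 1 / 10 := hz.trans (min_le_left _ _)
  have hz2 : ‖z‖ ≤ (m - (κ + m) / 3) / (m + (κ + m) / 3) := hz.trans (min_le_right _ _)
  have hzb : z ∈ ball (0 : E n) 1 := by
    rw [mem_ball_zero_iff]; linarith
  have hN : Num A m ‖A‖ := by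
    refine ⟨hm0, hC.low, fun x => ?_⟩
    calc (inner ℂ x (A x)).re ≤ ‖(inner ℂ x (A x) : ℂ)‖ := Complex.re_le_norm _
      _ ≤ ‖x‖ * ‖A x‖ := norm_inner_le_norm _ _
      _ ≤ ‖x‖ * (‖A‖ * ‖x‖) := by
        gcongr
        exact A.le_opNorm x
      _ = ‖A‖ * ‖x‖ ^ 2 := by ring
  have hμ : (κ + m) / 3 ≤ m * (1 - ‖z‖) / (1 + ‖z‖) := by
    have h1 := norm_nonneg z
    rw [le_div_iff₀ (by linarith)] at hz2
    rw [le_div_iff₀ (by linarith)]
    nlinarith
  have hdec : ∀ t : ℝ, 0 ≤ t → ‖v z t‖ ≤ ‖z‖ * Real.exp (-((κ + m) / 3 * t)) := fun t ht =>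
    flow_decay hN hh hv hzb hμ ht
  intro t ht
  exact ⟨hdec t ht, EXF_main A m _ hC.low hμ2 h v hh hv z hz1 hdec t ht⟩

end Pool.Agent.helper64.QF
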